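import Pool.Agent.TH652.ART.Main
import Pool.Agent.TH652.ART.NF

/-! Artin `L`-functions over the rational numbers: the terms of the primes, of their squares and the
higher powers. -/

set_option autoImplicit false

namespace Pool.Agent.TH652.PR

open Filter Topology Set Polynomial
open Pool.Agent.W189.ML Pool.Agent.W189.LC
open Pool.Agent.W187.UR hiding excess
open Pool.Agent.TH652.COL Pool.Agent.TH652.ART

/-- the norms -/
noncomputable def qp (p : Nat.Primes) : ℝ := (p : ℕ)

open Classical in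
/-- the Euler polynomials -/
noncomputable def pB (S : Finset Nat.Primes) (p : Nat.Primes) : ℝ[X] := if p ∈ S then 1 else 1 - X

theorem roots_lin : ((1 - X : ℝ[X]).map (algebraMap ℝ ℂ)).roots = {1} := by
  have h1 : (1 - X : ℝ[X]).map (algebraMap ℝ ℂ) = -(X - C 1) := by
    simp
  rw [h1, Polynomial.roots_neg, Polynomial.roots_X_sub_C]

theorem pw_lin (k : ℕ) : pw (1 - X : ℝ[X]) k = 1 := by
  unfold pw
  rw [roots_lin]
  simp

theorem tw_lin {V : Type} [AddCommGroup V] [Module ℂ V] (A : Module.End ℂ V) (z : ℂ) :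
    tw (1 - X : ℝ[X]) A z = LinearMap.det (1 - z • A) := by
  unfold tw
  rw [roots_lin]
  simp

theorem pdata (S : Finset Nat.Primes) : LData qp (pB S) 1 0 1 where
  two_le := fun p => by
    unfold qp
    exact_mod_cast p.2.two_le
  δ_nonneg := zero_le_one
  sum := fun σ hσ => by
    unfold qp
    exact Nat.Primes.summable_rpow.2 (by linarith)
  const := fun p => by
    unfold pB
    split_ifs <;> simp
  deg := fun p => by
    unfold pB
    split_ifs
    · simp
    · refine (Polynomial.natDegree_sub_le _ _).trans ?_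
      simp
  root := fun p ρ hρ => by
    unfold pB at hρ
    split_ifs at hρ with h
    · simp [Polynomial.IsRoot.def] at hρ
    · have h1 : ρ ∈ ((1 - X : ℝ[X]).map (algebraMap ℝ ℂ)).roots := by
        refine (Polynomial.mem_roots ?_).2 hρ
        intro h0
        have := congrArg (fun f : ℂ[X] => f.coeff 0) h0
        simp at this
      rw [roots_lin, Multiset.mem_singleton] at h1
      rw [h1]
      simp

/-- the terms of the series with exponents shifted by `r` -/
def shift (r : ℕ) (x : Nat.Primes × ℕ) : Nat.Primes × ℕ := (x.1, x.2 + r)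

theorem shift_inj (r : ℕ) : Function.Injective (shift r) := by
  rintro ⟨a, b⟩ ⟨c, d⟩ h
  unfold shift at h
  have h1 := Prod.ext_iff.1 h
  simp only at h1
  exact Prod.ext h1.1 (by
    have := h1.2
    simp only
    omega)

/-- splitting off the primes -/
theorem split_one {f : Nat.Primes × ℕ → ℂ} (hf : Summable f) :
    ∑' x, f x = ∑' p, f (p, 0) + ∑' x, f (shift 1 x) := by
  have hinj : Function.Injective fun p : Nat.Primes => (p, 0) := fun a b h =>
    (Prod.ext_iff.1 h).1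
  have h0 : Summable fun p : Nat.Primes => f (p, 0) := hf.comp_injective hinj
  have h1 : Summable fun x => f (shift 1 x) := hf.comp_injective (shift_inj 1)
  rw [hf.tsum_prod, h1.tsum_prod, ← h0.tsum_add]
  · refine tsum_congr fun p => ?_
    exact (hf.prod_factor p).tsum_eq_zero_add
  · exact h1.prod

/-- **uniform bound for the higher powers** -/
theorem high_bound (S : Finset Nat.Primes) {w : Nat.Primes × ℕ → ℝ} (hw : ∀ x, |w x| ≤ 1)
    {s₀ : ℝ} (hs : 0 < s₀) {r : ℕ} (hr : 1 < s₀ * (r + 1)) (γ : ℝ) :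
    ∃ C : ℝ, ∀ T : ℝ, 0 < T →
      ‖∑' x, (w (shift r x) : ℂ) * lterm qp (pB S) s₀ γ T (shift r x)‖ ≤ C := by
  have E := pdata S
  have hg : Summable fun n : ℕ => ((2 : ℝ) ^ (-s₀)) ^ n := by
    refine summable_geometric_of_lt_one (by positivity) ?_
    exact Real.rpow_lt_one_of_one_lt_of_neg (by norm_num) (by linarith)
  have h1 := (E.sum _ hr).mul_of_nonneg hg (fun v => by
      have := E.pos v
      show 0 ≤ qp v ^ (-(s₀ * (r + 1)))
      positivity) (fun n => by positivity)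
  refine ⟨(Real.exp 1 + 1) * ∑' x : Nat.Primes × ℕ, qp x.1 ^ (-(s₀ * (r + 1))) *
    ((2 : ℝ) ^ (-s₀)) ^ x.2, fun T hT => ?_⟩
  rw [← tsum_mul_left]
  refine tsum_of_norm_bounded (h1.mul_left (Real.exp 1 + 1)).hasSum fun x => ?_
  have hq := E.pos x.1
  have hf := E.fq_nonneg zero_le_one (shift r x)
  have h2 : 0 ≤ fq qp 1 (shift r x) / (1 * T) := by
    rw [one_mul]
    exact div_nonneg hf hT.le
  have h3 : ‖lterm qp (pB S) s₀ γ T (shift r x)‖ ≤
      |cq qp (pB S) s₀ (shift r x)| * (Real.exp 1 + 1) := by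
    rw [lterm_eq qp (pB S) zero_lt_one, norm_neg, norm_mul, norm_mul,
      Complex.norm_exp_ofReal_mul_I, mul_one, Complex.norm_real, Complex.norm_real,
      Real.norm_eq_abs, Real.norm_eq_abs, abs_of_nonneg (om_nonneg h2)]
    exact mul_le_mul_of_nonneg_left (om_le_const h2) (abs_nonneg _)
  have h4 : |cq qp (pB S) s₀ (shift r x)| ≤ qp x.1 ^ (-(s₀ * (r + 1))) *
      ((2 : ℝ) ^ (-s₀)) ^ x.2 := by
    unfold cq shift
    have h5 := E.pw_le x.1 (x.2 + r + 1)
    rw [Real.rpow_zero, one_pow, Nat.cast_one, mul_one] at h5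
    simp only
    have h6 : (1 : ℝ) ≤ ((x.2 + r : ℕ) : ℝ) + 1 := by
      have : (0 : ℝ) ≤ ((x.2 + r : ℕ) : ℝ) := Nat.cast_nonneg _
      linarith
    rw [abs_div, abs_mul, abs_of_pos (by positivity : (0 : ℝ) < ((x.2 + r : ℕ) : ℝ) + 1),
      abs_of_pos (by positivity : (0 : ℝ) < qp x.1 ^ (-((((x.2 + r : ℕ) : ℝ) + 1) * s₀)))]
    refine (div_le_self (by positivity) h6).trans ?_
    have h7 : qp x.1 ^ (-((((x.2 + r : ℕ) : ℝ) + 1) * s₀)) = qp x.1 ^ (-(s₀ * (r + 1))) *
        (qp x.1 ^ (-s₀)) ^ x.2 := by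
      rw [← Real.rpow_natCast, ← Real.rpow_mul hq.le, ← Real.rpow_add hq]
      congr 1
      push_cast
      ring
    rw [h7]
    have h8 : (qp x.1 ^ (-s₀)) ^ x.2 ≤ ((2 : ℝ) ^ (-s₀)) ^ x.2 := by
      refine pow_le_pow_left₀ (by positivity) ?_ _
      exact Real.rpow_le_rpow_of_nonpos (by norm_num) (E.two_le x.1) (by linarith)
    calc |pw (pB S x.1) (x.2 + r + 1)| * (qp x.1 ^ (-(s₀ * (r + 1))) * (qp x.1 ^ (-s₀)) ^ x.2) ≤
        1 * (qp x.1 ^ (-(s₀ * (r + 1))) * ((2 : ℝ) ^ (-s₀)) ^ x.2) := by gcongr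
      _ = _ := one_mul _
  rw [norm_mul, Complex.norm_real, Real.norm_eq_abs]
  calc |w (shift r x)| * ‖lterm qp (pB S) s₀ γ T (shift r x)‖ ≤
      1 * (|cq qp (pB S) s₀ (shift r x)| * (Real.exp 1 + 1)) :=
        mul_le_mul (hw _) h3 (norm_nonneg _) zero_le_one
    _ ≤ 1 * ((qp x.1 ^ (-(s₀ * (r + 1))) * ((2 : ℝ) ^ (-s₀)) ^ x.2) * (Real.exp 1 + 1)) := by
        gcongr
    _ = _ := by ring

/-- the terms of the squares at `1 / 2` are the terms of the primes at `1` -/
theorem square_term (S : Finset Nat.Primes) (γ T : ℝ) (p : Nat.Primes) :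
    lterm qp (pB S) (1 / 2) γ T (p, 1) = (1 / 2 : ℂ) * lterm qp (pB S) 1 γ (T / 2) (p, 0) := by
  unfold lterm
  have h1 : pw (pB S p) (1 + 1) = pw (pB S p) (0 + 1) := by
    unfold pB
    split_ifs
    · rw [pw_one, pw_one]
    · rw [pw_lin, pw_lin]
  simp only
  rw [h1]
  have h2 : (((1 : ℕ) : ℝ) + 1) * Real.log (qp p) / T = (((0 : ℕ) : ℝ) + 1) * Real.log (qp p) / (T / 2) := by
    push_cast
    rw [div_div_eq_mul_div]
    ring
  have h3 : -((((1 : ℕ) : ℝ) + 1) * (1 / 2)) = -((((0 : ℕ) : ℝ) + 1) * 1) := by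
    push_cast
    ring
  rw [h2, h3]
  push_cast
  ring

end Pool.Agent.TH652.PR
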