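import Pool.Agent.TH652.ART.Exp

/-! Frobenius-Schur: an irreducible character whose indicator is not zero has real values. -/

set_option autoImplicit false

namespace Pool.Agent.TH652.PR

open ComplexConjugate TensorProduct
open Pool.Agent.TH652.ART

variable {G : Type} [Group G] [Fintype G]

theorem sum_tprod_inv {m : ℕ} (ρ : Representation ℂ G (Fin m → ℂ))
    (v : (Fin m → ℂ) ⊗[ℂ] (Fin m → ℂ)) :
    ∑ g, (ρ.tprod ρ) g v ∈ (ρ.tprod ρ).invariants := by
  intro h
  rw [map_sum]
  refine Fintype.sum_equiv (Equiv.mulLeft h) _ _ fun g => ?_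
  rw [Equiv.coe_mulLeft, map_mul]
  rfl

theorem entry_sum {m : ℕ} (ρ : Representation ℂ G (Fin m → ℂ))
    (h0 : (ρ.tprod ρ).invariants = ⊥) (i j k l : Fin m) :
    ∑ g, ρ g (Pi.single k 1) i * ρ g (Pi.single l 1) j = 0 := by
  have h1 := sum_tprod_inv ρ (Pi.single k 1 ⊗ₜ[ℂ] Pi.single l 1)
  rw [h0, Submodule.mem_bot] at h1
  have h2 := congrArg (fun v => LinearMap.mul' ℂ ℂ
    (TensorProduct.map (LinearMap.proj i : (Fin m → ℂ) →ₗ[ℂ] ℂ)
      (LinearMap.proj j : (Fin m → ℂ) →ₗ[ℂ] ℂ) v)) h1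
  simp only [map_sum, map_zero] at h2
  rw [← h2]
  refine Finset.sum_congr rfl fun g _ => ?_
  rw [Representation.tprod_apply, TensorProduct.map_tmul, TensorProduct.map_tmul]
  rfl

omit [Fintype G] in
theorem char_sq {m : ℕ} (ρ : Representation ℂ G (Fin m → ℂ)) (g : G) :
    ρ.character (g * g) = ∑ i, ∑ k, ρ g (Pi.single k 1) i * ρ g (Pi.single i 1) k := by
  unfold Representation.character
  rw [map_mul, LinearMap.trace_eq_matrix_trace ℂ (Pi.basisFun ℂ (Fin m))]
  have h1 : LinearMap.toMatrix (Pi.basisFun ℂ (Fin m)) (Pi.basisFun ℂ (Fin m)) (ρ g * ρ g) =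
      LinearMap.toMatrix (Pi.basisFun ℂ (Fin m)) (Pi.basisFun ℂ (Fin m)) (ρ g) *
        LinearMap.toMatrix (Pi.basisFun ℂ (Fin m)) (Pi.basisFun ℂ (Fin m)) (ρ g) :=
    LinearMap.toMatrix_mul _ _ _
  rw [h1]
  unfold Matrix.trace
  refine Finset.sum_congr rfl fun i _ => ?_
  rw [Matrix.diag_apply, Matrix.mul_apply]
  refine Finset.sum_congr rfl fun k _ => ?_
  rw [LinearMap.toMatrix_apply, LinearMap.toMatrix_apply]
  simp

/-- **real characters** -/
theorem real_of_indicator {m : ℕ} (ρ : Representation ℂ G (Fin m → ℂ))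
    (h1 : ∑ x, ρ.character x * ρ.character x⁻¹ = (Nat.card G : ℂ))
    (h2 : ∑ x, ρ.character (x * x) ≠ 0) (x : G) : ((ρ.character x).re : ℂ) = ρ.character x := by
  have hc : (Nat.card G : ℂ) ≠ 0 := card_ne
  let _ : Invertible (Nat.card G : ℂ) := invertibleOfNonzero hc
  have h3 := Representation.card_inv_mul_sum_char_eq_finrank (ρ.tprod ρ)
  rw [Representation.char_tensor] at h3
  rcases Nat.eq_zero_or_pos (Module.finrank ℂ (ρ.tprod ρ).invariants) with h4 | h4
  · exfalso
    apply h2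
    have h5 : (ρ.tprod ρ).invariants = ⊥ := Submodule.finrank_eq_zero.1 h4
    simp only [char_sq]
    rw [Finset.sum_comm]
    refine Finset.sum_eq_zero fun i _ => ?_
    rw [Finset.sum_comm]
    exact Finset.sum_eq_zero fun k _ => entry_sum ρ h5 i k k i
  · set a := Module.finrank ℂ (ρ.tprod ρ).invariants with ha
    have h5 : ∑ g, ρ.character g * ρ.character g = (Nat.card G : ℂ) * a := by
      rw [inv_mul_eq_iff_eq_mul₀ hc] at h3
      exact h3
    have h6 := congrArg Complex.re h5
    have h7 := congrArg Complex.re h1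
    rw [Complex.re_sum] at h6 h7
    have e1 : ((Nat.card G : ℂ) * a).re = (Nat.card G : ℝ) * a := by
      have : ((Nat.card G : ℂ) * a) = (((Nat.card G : ℝ) * a : ℝ) : ℂ) := by push_cast; rfl
      rw [this, Complex.ofReal_re]
    have e2 : ((Nat.card G : ℂ)).re = (Nat.card G : ℝ) := Complex.natCast_re _
    rw [e1] at h6
    rw [e2] at h7
    have e3 : ∀ g, (ρ.character g * ρ.character g⁻¹).re - (ρ.character g * ρ.character g).re =
        2 * (ρ.character g).im ^ 2 := by
      intro g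
      rw [char_inv, Complex.mul_re, Complex.mul_re, Complex.conj_re, Complex.conj_im]
      ring
    have h8 : ∑ g, 2 * (ρ.character g).im ^ 2 = (Nat.card G : ℝ) - (Nat.card G : ℝ) * a := by
      rw [← h6, ← h7, ← Finset.sum_sub_distrib]
      exact Finset.sum_congr rfl fun g _ => (e3 g).symm
    have h9 : (Nat.card G : ℝ) - (Nat.card G : ℝ) * a ≤ 0 := by
      have h10 : (1 : ℝ) ≤ a := by exact_mod_cast h4
      have h11 : (0 : ℝ) ≤ Nat.card G := Nat.cast_nonneg _
      nlinarith
    have h10 : ∑ g, 2 * (ρ.character g).im ^ 2 = 0 :=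
      le_antisymm (h8.trans_le h9) (Finset.sum_nonneg fun g _ => by positivity)
    have h11 := (Finset.sum_eq_zero_iff_of_nonneg (fun g _ => by positivity)).1 h10 x
      (Finset.mem_univ x)
    have h12 : (ρ.character x).im = 0 := by
      have : (ρ.character x).im ^ 2 = 0 := by linarith
      exact pow_eq_zero_iff (two_ne_zero) |>.1 this
    apply Complex.ext
    · simp
    · simp [h12]

end Pool.Agent.TH652.PR
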