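import Pool.Agent.TH652.PR.Base
import Pool.Agent.TH652.PR.FS

/-! The law for the primes with Frobenius in a given class. -/

set_option autoImplicit false

namespace Pool.Agent.TH652.PR

open Filter Topology Set Polynomial
open Pool.Agent.W189.ML Pool.Agent.W189.LC
open Pool.Agent.W187.UR hiding excess
open Pool.Agent.TH652.COL Pool.Agent.TH652.ART

/-- the main term of a law -/
theorem bdd_of_law {F : ℝ → ℂ} {a c L : ℂ}
    (h : (fun T : ℝ => F T - (a * (Real.log T - L) + c)) =O[atTop] (fun T : ℝ => 1 / T)) :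
    (fun T : ℝ => F T - a * Real.log T) =O[atTop] (fun _ : ℝ => (1 : ℝ)) := by
  have h0 : Tendsto (fun T : ℝ => (1 : ℝ) / T) atTop (𝓝 0) := tendsto_const_nhds.div_atTop tendsto_id
  have h1 : (fun T : ℝ => F T - (a * (Real.log T - L) + c)) =O[atTop] (fun _ : ℝ => (1 : ℝ)) :=
    h.trans (h0.isBigO_one ℝ)
  have h2 : (fun _ : ℝ => c - a * L) =O[atTop] (fun _ : ℝ => (1 : ℝ)) :=
    Asymptotics.isBigO_const_const _ one_ne_zero _
  refine (h1.add h2).congr_left fun T => ?_
  ring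

/-- limits from bounded differences -/
theorem lim_of_bdd {F : ℝ → ℂ} {a : ℂ}
    (h : (fun T : ℝ => F T - a * Real.log T) =O[atTop] (fun _ : ℝ => (1 : ℝ))) :
    Tendsto (fun T : ℝ => F T / Real.log T) atTop (𝓝 a) := by
  have h2 : Tendsto (fun T : ℝ => ((Real.log T)⁻¹ : ℝ)) atTop (𝓝 0) :=
    Real.tendsto_log_atTop.inv_tendsto_atTop
  have h3 : (fun T : ℝ => (F T - a * Real.log T) * (((Real.log T)⁻¹ : ℝ) : ℂ)) =O[atTop]
      (fun T : ℝ => (1 : ℝ) * (Real.log T)⁻¹) :=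
    h.mul (Asymptotics.IsBigO.of_bound 1 (Eventually.of_forall fun T => by
      rw [Complex.norm_real, one_mul]))
  simp only [one_mul] at h3
  have h4 := h3.trans_tendsto h2
  have h5 := h4.add_const a
  rw [zero_add] at h5
  refine h5.congr' ?_
  filter_upwards [eventually_gt_atTop 1] with T hT
  have hl : (Real.log T : ℂ) ≠ 0 := by
    have : Real.log T ≠ 0 := (Real.log_pos hT).ne'
    exact_mod_cast this
  rw [Complex.ofReal_inv]
  field_simp
  ring

variable {G : Type} [Group G]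

/-- the number of square roots -/
noncomputable def rt (g : G) : ℕ := Nat.card {h : G // h * h = g}

section
variable [Fintype G]

open Classical in
theorem rt_eq (g : G) : (rt g : ℝ) = ∑ h : G, if h * h = g then 1 else 0 := by
  unfold rt
  rw [Nat.card_eq_fintype_card, Fintype.card_subtype, Finset.sum_boole]

theorem sum_cw_sq (g : G) : ∑ h, cw g (h * h) = rt g := by
  classical
  have h1 : ∑ x, cw g x * (rt x : ℝ) = rt g := by
    refine mean_cw (fun x => (rt x : ℝ)) (fun x y => ?_) (fun x => ?_) g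
    · rw [rt_eq, rt_eq, ← Equiv.sum_comp (MulAut.conj y).toEquiv]
      refine Finset.sum_congr rfl fun h _ => ?_
      have e : (MulAut.conj y).toEquiv h * (MulAut.conj y).toEquiv h = y * x * y⁻¹ ↔ h * h = x := by
        have e1 : (MulAut.conj y).toEquiv h = y * h * y⁻¹ := rfl
        rw [e1]
        constructor
        · intro h2
          have h3 : y * h * y⁻¹ * (y * h * y⁻¹) = y * (h * h) * y⁻¹ := by group
          rw [h3] at h2
          exact mul_left_cancel (mul_right_cancel h2)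
        · rintro rfl
          group
      simp only [e]
    · rw [rt_eq, rt_eq, ← Equiv.sum_comp (Equiv.inv G)]
      refine Finset.sum_congr rfl fun h _ => ?_
      have e : (Equiv.inv G) h * (Equiv.inv G) h = x⁻¹ ↔ h * h = x := by
        rw [Equiv.inv_apply, ← mul_inv_rev, inv_inj]
      simp only [e]
  rw [← h1]
  simp only [rt_eq, Finset.mul_sum]
  rw [Finset.sum_comm]
  refine Finset.sum_congr rfl fun h _ => ?_
  simp

/-- the weights of a class function -/
noncomputable def fwt (Fr : Nat.Primes → G) (f : G → ℝ) (x : Nat.Primes × ℕ) : ℝ :=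
  f (Fr x.1 ^ (x.2 + 1))

/-- the inverse Frobenius elements -/
def fi (Fr : Nat.Primes → G) (p : Nat.Primes) : G := (Fr p)⁻¹

omit [Fintype G] in
theorem kw_fi (Fr : Nat.Primes → G) (g : G) (x : Nat.Primes × ℕ) :
    kw (fi Fr) g x = cw g (Fr x.1 ^ (x.2 + 1)) := by
  unfold kw fi
  rw [inv_pow, cw_inv]

/-- the sum over the primes -/
noncomputable def psum (S : Finset Nat.Primes) (Fr : Nat.Primes → G) (f : G → ℝ) (s₀ γ T : ℝ) : ℂ :=
  ∑' p : Nat.Primes, (f (Fr p) : ℂ) * lterm qp (pB S) s₀ γ T (p, 0)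

variable {κ : Type} [Fintype κ] {n : κ → ℕ} {τ : ∀ k, Representation ℂ G (Fin (n k) → ℂ)}
  {S : Finset Nat.Primes} {Fr : Nat.Primes → G} {L : κ → ℂ → ℂ} {σ₁ : ℝ}

/-- the class law -/
theorem claw (hτ : IsComplete τ) {s₀ : ℝ}
    (hmer : ∀ k, ∀ x : ℝ, s₀ ≤ x → MeromorphicAt (L k) (x : ℂ))
    (hL : ∀ k, ∀ s : ℂ, σ₁ < s.re → L k s =
      ∏' p, (tw (pB S p) (τ k (Fr p)) ((qp p : ℂ) ^ (-s)))⁻¹) :
    ∃ m : κ → ℤ, (∀ k, meromorphicOrderAt (L k) (s₀ : ℂ) = m k) ∧
      ∀ γ : ℝ, Real.pi / 2 < γ →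
        (∀ k, (fun T : ℝ => wsum qp (pB S) (rw' (fA (fi Fr) (τ k))) s₀ γ T - m k * Real.log T)
          =O[atTop] (fun _ : ℝ => (1 : ℝ))) ∧
        ∀ g, (fun T : ℝ => wsum qp (pB S) (kw (fi Fr) g) s₀ γ T - (Nat.card G : ℂ)⁻¹ *
          (∑ k, (((τ k).character g).re : ℂ) * m k) * Real.log T) =O[atTop]
            (fun _ : ℝ => (1 : ℝ)) := by
  obtain ⟨m, hm, hlaw⟩ := classlaw (pdata S) hτ (fi Fr) (F := L) (s₀ := s₀) (σ₁ := fun _ => σ₁)
    hmer (fun k s hs => by
      rw [hL k s hs]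
      refine tprod_congr fun p => ?_
      unfold fA fi
      rw [inv_inv])
  refine ⟨m, fun k => (hm k).2.1, fun γ hγ => ?_⟩
  obtain ⟨h1, h2⟩ := hlaw γ hγ
  refine ⟨fun k => ?_, fun g => ?_⟩
  · refine bdd_of_law (L := Lam γ) (c := -Real.log ‖meromorphicTrailingCoeffAt (L k) (s₀ : ℂ)‖ +
      Real.pi * excess (L k) s₀ * Complex.I) ((h1 k).congr_left fun T => ?_)
    ring
  · refine bdd_of_law (L := Lam γ) (c := (Nat.card G : ℂ)⁻¹ *
        ∑ k, (((τ k).character g).re : ℂ) *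
          (-Real.log ‖meromorphicTrailingCoeffAt (L k) (s₀ : ℂ)‖ +
          Real.pi * excess (L k) s₀ * Complex.I)) ((h2 g).congr_left fun T => ?_)
    have e0 : (((Nat.card G : ℝ)⁻¹ : ℝ) : ℂ) = (Nat.card G : ℂ)⁻¹ := by
      push_cast
      rfl
    rw [e0]
    congr 1
    rw [mul_assoc, ← mul_add, Finset.sum_mul, ← Finset.sum_add_distrib]
    congr 1
    refine Finset.sum_congr rfl fun k _ => ?_
    ring

/-- **the primes at `1`** -/
theorem one_law (hτ : IsComplete τ)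
    (hmer : ∀ k, ∀ x : ℝ, (1 / 2 : ℝ) ≤ x → MeromorphicAt (L k) (x : ℂ))
    (hL : ∀ k, ∀ s : ℂ, σ₁ < s.re → L k s =
      ∏' p, (tw (pB S p) (τ k (Fr p)) ((qp p : ℂ) ^ (-s)))⁻¹)
    {k₀ : κ} (hk₀ : ∀ g, (τ k₀).character g = 1)
    (h1 : meromorphicOrderAt (L k₀) 1 = ((-1 : ℤ) : WithTop ℤ))
    (h2 : ∀ k, k ≠ k₀ → meromorphicOrderAt (L k) 1 = 0) {γ : ℝ} (hγ : Real.pi / 2 < γ)
    {f : G → ℝ} (hf : ∀ x y, f (y * x * y⁻¹) = f x) (hi : ∀ x, f x⁻¹ = f x)
    (hb : ∀ x, |f x| ≤ 1) :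
    (fun T : ℝ => psum S Fr f 1 γ T - (-((Nat.card G : ℂ)⁻¹ * ∑ h, (f h : ℂ))) * Real.log T)
      =O[atTop] (fun _ : ℝ => (1 : ℝ)) := by
  classical
  obtain ⟨m, hm, hlaw⟩ := claw hτ (s₀ := 1) (fun k x hx => hmer k x (by linarith)) hL
  have hm0 : m k₀ = -1 := by
    have := hm k₀
    rw [Complex.ofReal_one, h1] at this
    exact_mod_cast this.symm
  have hm1 : ∀ k, k ≠ k₀ → m k = 0 := by
    intro k hk
    have := hm k
    rw [Complex.ofReal_one, h2 k hk] at this
    exact_mod_cast this.symm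
  have hsum : ∀ g, ∑ k, (((τ k).character g).re : ℂ) * m k = -1 := by
    intro g
    rw [Finset.sum_eq_single k₀ (fun k _ hk => by rw [hm1 k hk, Int.cast_zero, mul_zero])
      (fun h => absurd (Finset.mem_univ _) h), hm0, hk₀]
    simp
  obtain ⟨-, h4⟩ := hlaw γ hγ
  have h5 : (fun T : ℝ => ∑ h, (f h : ℂ) * (wsum qp (pB S) (kw (fi Fr) h) 1 γ T -
      (Nat.card G : ℂ)⁻¹ * (-1) * Real.log T)) =O[atTop] (fun _ : ℝ => (1 : ℝ)) := by
    have := Asymptotics.IsBigO.sum (s := Finset.univ) fun h _ =>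
      ((h4 h).const_mul_left (f h : ℂ))
    refine this.congr_left fun T => ?_
    rw [Finset.sum_apply]
    refine Finset.sum_congr rfl fun h _ => ?_
    rw [hsum]
  obtain ⟨C, hC⟩ := high_bound S (w := fwt Fr f) (fun x => hb _) (s₀ := 1) zero_lt_one (r := 1)
    (by norm_num) γ
  have h6 : (fun T : ℝ => ∑' x, (fwt Fr f (shift 1 x) : ℂ) * lterm qp (pB S) 1 γ T (shift 1 x))
      =O[atTop] (fun _ : ℝ => (1 : ℝ)) := by
    refine Asymptotics.IsBigO.of_bound C ?_
    filter_upwards [eventually_gt_atTop 0] with T hT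
    rw [norm_one, mul_one]
    exact hC T hT
  refine (h5.sub h6).congr' ?_ (EventuallyEq.refl _ _)
  filter_upwards [eventually_gt_atTop 0] with T hT
  have h7 : wsum qp (pB S) (fwt Fr f) 1 γ T = ((1 : ℝ) : ℂ) * ∑ h, (f h : ℂ) *
      wsum qp (pB S) (kw (fi Fr) h) 1 γ T := by
    refine wsum_comb (pdata S) _ _ (fun h => kw (fi Fr) h) (W := 1) (abs_kw_le (fi Fr))
      (fun x => ?_) 1 γ hT
    rw [one_mul]
    simp only [kw_fi]
    exact (mean_cw' f hf hi _).symm
  have h8 : wsum qp (pB S) (fwt Fr f) 1 γ T = psum S Fr f 1 γ T +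
      ∑' x, (fwt Fr f (shift 1 x) : ℂ) * lterm qp (pB S) 1 γ T (shift 1 x) := by
    have h9 := split_one (wsummable (pdata S) (w := fwt Fr f) (W := 1) (fun x => hb _) 1 γ hT)
    unfold wsum psum
    rw [h9]
    congr 1
    refine tsum_congr fun p => ?_
    unfold fwt
    rw [zero_add, pow_one]
  have h9 : ∑ h, (f h : ℂ) * (wsum qp (pB S) (kw (fi Fr) h) 1 γ T -
      (Nat.card G : ℂ)⁻¹ * (-1) * Real.log T) =
      ∑ h, (f h : ℂ) * wsum qp (pB S) (kw (fi Fr) h) 1 γ T +
        ((Nat.card G : ℂ)⁻¹ * ∑ h, (f h : ℂ)) * Real.log T := by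
    rw [Finset.mul_sum, Finset.sum_mul, ← Finset.sum_add_distrib]
    refine Finset.sum_congr rfl fun h _ => ?_
    ring
  rw [Complex.ofReal_one, one_mul] at h7
  rw [h9, ← h7, h8]
  ring

/-- **the primes at `1 / 2`** -/
theorem half_law (hτ : IsComplete τ)
    (hmer : ∀ k, ∀ x : ℝ, (1 / 2 : ℝ) ≤ x → MeromorphicAt (L k) (x : ℂ))
    (hL : ∀ k, ∀ s : ℂ, σ₁ < s.re → L k s =
      ∏' p, (tw (pB S p) (τ k (Fr p)) ((qp p : ℂ) ^ (-s)))⁻¹)
    {k₀ : κ} (hk₀ : ∀ g, (τ k₀).character g = 1)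
    (h1 : meromorphicOrderAt (L k₀) 1 = ((-1 : ℤ) : WithTop ℤ))
    (h2 : ∀ k, k ≠ k₀ → meromorphicOrderAt (L k) 1 = 0) :
    ∃ m : κ → ℤ, (∀ k, meromorphicOrderAt (L k) ((1 / 2 : ℝ) : ℂ) = m k) ∧
      ∀ γ : ℝ, Real.pi / 2 < γ →
        (∀ g, (fun T : ℝ => psum S Fr (cw g) (1 / 2) γ T - ((Nat.card G : ℂ)⁻¹ *
          (rt g / 2 + ∑ k, (((τ k).character g).re : ℂ) * m k)) * Real.log T) =O[atTop]
            (fun _ : ℝ => (1 : ℝ))) ∧
        ∀ k, Tendsto (fun T : ℝ => ∑ g, (((τ k).character g).re : ℂ) *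
          (psum S Fr (cw g) (1 / 2) γ T / Real.log T - (Nat.card G : ℂ)⁻¹ * (rt g / 2))) atTop
            (𝓝 (m k : ℂ)) := by
  classical
  obtain ⟨m, hm, hlaw⟩ := claw hτ (s₀ := 1 / 2) hmer hL
  refine ⟨m, hm, fun γ hγ => ?_⟩
  obtain ⟨h3, h4⟩ := hlaw γ hγ
  -- the difference between a prime sum and the full sum
  have key : ∀ g, (fun T : ℝ => (psum S Fr (cw g) (1 / 2) γ T -
      wsum qp (pB S) (kw (fi Fr) g) (1 / 2) γ T) -
      ((Nat.card G : ℂ)⁻¹ * (rt g / 2)) * Real.log T) =O[atTop] (fun _ : ℝ => (1 : ℝ)) := by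
    intro g
    have hb : ∀ x, |kw (fi Fr) g x| ≤ 1 := abs_kw_le (fi Fr) g
    obtain ⟨C, hC⟩ := high_bound S hb (s₀ := 1 / 2) (by norm_num) (r := 2)
      (by norm_num) γ
    have h6 : (fun T : ℝ => ∑' x, (kw (fi Fr) g (shift 2 x) : ℂ) *
        lterm qp (pB S) (1 / 2) γ T (shift 2 x)) =O[atTop] (fun _ : ℝ => (1 : ℝ)) := by
      refine Asymptotics.IsBigO.of_bound C ?_
      filter_upwards [eventually_gt_atTop 0] with T hT
      rw [norm_one, mul_one]
      exact hC T hT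
    have h7 := one_law hτ hmer hL hk₀ h1 h2 hγ (f := fun x => cw g (x * x))
      (fun x y => by
        have : y * x * y⁻¹ * (y * x * y⁻¹) = y * (x * x) * y⁻¹ := by group
        rw [this, cw_conj]) (fun x => by
        have : x⁻¹ * x⁻¹ = (x * x)⁻¹ := by group
        rw [this, cw_inv]) (fun x => abs_cw_le g _)
    have e1 : ∑ h, ((cw g (h * h) : ℝ) : ℂ) = rt g := by
      rw [← Complex.ofReal_sum, sum_cw_sq, Complex.ofReal_natCast]
    rw [e1] at h7
    have h8 := h7.comp_tendsto (k := fun T : ℝ => T / 2)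
      (tendsto_id.atTop_div_const (by norm_num))
    have h9 := h8.const_mul_left (1 / 2 : ℂ)
    have h10 : (fun _ : ℝ => (Nat.card G : ℂ)⁻¹ * (rt g / 2) * Real.log 2) =O[atTop]
        (fun _ : ℝ => (1 : ℝ)) := Asymptotics.isBigO_const_const _ one_ne_zero _
    refine (((h6.add h9).add h10).neg_left).congr' ?_ (EventuallyEq.refl _ _)
    filter_upwards [eventually_gt_atTop 0] with T hT
    have hs := wsummable (pdata S) (w := kw (fi Fr) g) (W := 1) hb (1 / 2) γ hT
    have s1 := split_one hs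
    have s2 := split_one (f := fun x => (kw (fi Fr) g (shift 1 x) : ℂ) *
      lterm qp (pB S) (1 / 2) γ T (shift 1 x)) (hs.comp_injective (shift_inj 1))
    have e2 : ∑' p : Nat.Primes, (kw (fi Fr) g (p, 0) : ℂ) *
        lterm qp (pB S) (1 / 2) γ T (p, 0) = psum S Fr (cw g) (1 / 2) γ T := by
      unfold psum
      refine tsum_congr fun p => ?_
      rw [kw_fi, zero_add, pow_one]
    have e3 : ∑' p : Nat.Primes, (kw (fi Fr) g (shift 1 (p, 0)) : ℂ) *
        lterm qp (pB S) (1 / 2) γ T (shift 1 (p, 0)) =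
        (1 / 2 : ℂ) * psum S Fr (fun x => cw g (x * x)) 1 γ (T / 2) := by
      unfold psum
      rw [← tsum_mul_left]
      refine tsum_congr fun p => ?_
      have : shift 1 (p, 0) = (p, 1) := rfl
      rw [this, kw_fi, square_term]
      simp only
      rw [pow_succ, pow_one]
      ring
    have e4 : ∀ x, shift 1 (shift 1 x) = shift 2 x := fun x => rfl
    simp only [e4] at s2
    have hl : (Real.log (T / 2) : ℂ) = Real.log T - Real.log 2 := by
      rw [Real.log_div hT.ne' two_ne_zero]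
      push_cast
      rfl
    simp only [Function.comp_def]
    unfold wsum
    rw [s1, s2, e2, e3, hl]
    ring
  refine ⟨fun g => ?_, fun k => ?_⟩
  · refine ((key g).add (h4 g)).congr_left fun T => ?_
    ring
  · have l1 := lim_of_bdd (h3 k)
    have l2 : ∀ g, Tendsto (fun T : ℝ => (psum S Fr (cw g) (1 / 2) γ T -
        wsum qp (pB S) (kw (fi Fr) g) (1 / 2) γ T) / Real.log T) atTop
        (𝓝 ((Nat.card G : ℂ)⁻¹ * (rt g / 2))) := fun g => lim_of_bdd (key g)
    have l3 : Tendsto (fun T : ℝ => ∑ g, (((τ k).character g).re : ℂ) *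
        ((psum S Fr (cw g) (1 / 2) γ T - wsum qp (pB S) (kw (fi Fr) g) (1 / 2) γ T) / Real.log T -
          (Nat.card G : ℂ)⁻¹ * (rt g / 2))) atTop (𝓝 (∑ g, (((τ k).character g).re : ℂ) *
        ((Nat.card G : ℂ)⁻¹ * (rt g / 2) - (Nat.card G : ℂ)⁻¹ * (rt g / 2)))) :=
      tendsto_finsetSum _ fun g _ => ((l2 g).sub_const _).const_mul _
    have e5 : (∑ g, (((τ k).character g).re : ℂ) *
        ((Nat.card G : ℂ)⁻¹ * (rt g / 2) - (Nat.card G : ℂ)⁻¹ * (rt g / 2))) = 0 :=
      Finset.sum_eq_zero fun g _ => by rw [sub_self, mul_zero]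
    rw [e5] at l3
    have l4 := l1.add l3
    rw [add_zero] at l4
    refine l4.congr' ?_
    filter_upwards [eventually_gt_atTop 0] with T hT
    rw [twist_expand (pdata S) (fi Fr) (τ k) (1 / 2) γ hT, Complex.ofReal_one, one_mul,
      Finset.sum_div, ← Finset.sum_add_distrib]
    refine Finset.sum_congr rfl fun g _ => ?_
    ring

/-- the symmetry of the orders under complex conjugation -/
theorem half_sym {m : κ → ℤ}
    (h1 : ∀ g, (fun T : ℝ => psum S Fr (cw g) (1 / 2) Real.pi T - ((Nat.card G : ℂ)⁻¹ *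
          (rt g / 2 + ∑ k, (((τ k).character g).re : ℂ) * m k)) * Real.log T) =O[atTop]
            (fun _ : ℝ => (1 : ℝ)))
    (h2 : ∀ k, Tendsto (fun T : ℝ => ∑ g, (((τ k).character g).re : ℂ) *
          (psum S Fr (cw g) (1 / 2) Real.pi T / Real.log T - (Nat.card G : ℂ)⁻¹ * (rt g / 2))) atTop
            (𝓝 (m k : ℂ))) (k : κ) :
    (m k : ℂ) = (Nat.card G : ℂ)⁻¹ * ∑ g, (((τ k).character g).re : ℂ) *
      ∑ l, (((τ l).character g).re : ℂ) * m l := by
  have l3 : Tendsto (fun T : ℝ => ∑ g, (((τ k).character g).re : ℂ) *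
          (psum S Fr (cw g) (1 / 2) Real.pi T / Real.log T - (Nat.card G : ℂ)⁻¹ * (rt g / 2))) atTop
      (𝓝 (∑ g, (((τ k).character g).re : ℂ) * ((Nat.card G : ℂ)⁻¹ *
          (rt g / 2 + ∑ k, (((τ k).character g).re : ℂ) * m k) -
            (Nat.card G : ℂ)⁻¹ * (rt g / 2)))) :=
    tendsto_finsetSum _ fun g _ => ((lim_of_bdd (h1 g)).sub_const _).const_mul _
  rw [tendsto_nhds_unique (h2 k) l3, Finset.mul_sum]
  refine Finset.sum_congr rfl fun g _ => ?_
  ring

/-- **the equivalence** -/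
theorem race_iff (hτ : IsComplete τ) {m : κ → ℤ} (hsym : ∀ k, (m k : ℂ) = (Nat.card G : ℂ)⁻¹ *
      ∑ g, (((τ k).character g).re : ℂ) * ∑ l, (((τ l).character g).re : ℂ) * m l)
    (Y : Finset κ) [DecidableEq κ]
    (hY : ∀ k ∈ Y, ∀ g, (((τ k).character g).re : ℂ) = (τ k).character g) {Pg : G → ℝ → ℂ}
    (hP : ∀ g, Tendsto (fun T : ℝ => Pg g T / Real.log T) atTop (𝓝 ((Nat.card G : ℂ)⁻¹ *
          (rt g / 2 + ∑ k, (((τ k).character g).re : ℂ) * m k)))) :
    (∀ k, m k = if k ∈ Y then 1 else 0) ↔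
      ∀ g, Tendsto (fun T : ℝ => Pg g T / Real.log T) atTop (𝓝 ((Nat.card G : ℂ)⁻¹ *
          (rt g / 2 + ∑ k ∈ Y, (τ k).character g))) := by
  have hc : (Nat.card G : ℂ) ≠ 0 := card_ne
  constructor
  · intro h g
    have e : ∑ k, (((τ k).character g).re : ℂ) * m k = ∑ k ∈ Y, (τ k).character g := by
      have e1 : ∀ k, (((τ k).character g).re : ℂ) * m k =
          if k ∈ Y then (τ k).character g else 0 := by
        intro k
        rw [h k]
        split_ifs with hk
        · rw [hY k hk]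
          simp
        · simp
      rw [Finset.sum_congr rfl fun k _ => e1 k, Finset.sum_ite_mem, Finset.univ_inter]
    have := hP g
    rw [e] at this
    exact this
  · intro h k
    have e : ∀ g, ∑ l, (((τ l).character g).re : ℂ) * m l = ∑ l ∈ Y, (τ l).character g := by
      intro g
      have h1 := tendsto_nhds_unique (hP g) (h g)
      have h2 := mul_left_cancel₀ (inv_ne_zero hc) h1
      exact add_left_cancel h2
    have h1 := hsym k
    simp only [e] at h1
    have h2 : ∀ l ∈ Y, ∑ g, (((τ k).character g).re : ℂ) * (τ l).character g =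
        if k = l then (Nat.card G : ℂ) else 0 := by
      intro l hl
      have h3 := ortho hτ k l
      have h4 : ∀ g, (((τ k).character g).re : ℂ) * (τ l).character g =
          (((τ k).character g * (τ l).character g⁻¹).re : ℂ) := by
        intro g
        have h5 := hY l hl g
        rw [char_inv, ← h5, Complex.conj_ofReal, Complex.re_mul_ofReal]
        push_cast
        rfl
      rw [Finset.sum_congr rfl fun g _ => h4 g, ← Complex.ofReal_sum, ← Complex.re_sum, h3]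
      split_ifs
      · rw [Complex.natCast_re, Complex.ofReal_natCast]
      · simp
    have h3 : (m k : ℂ) = if k ∈ Y then 1 else 0 := by
      rw [h1]
      simp only [Finset.mul_sum]
      rw [Finset.sum_comm]
      have h4 : ∀ l ∈ Y, ∑ g, (Nat.card G : ℂ)⁻¹ *
          ((((τ k).character g).re : ℂ) * (τ l).character g) = if k = l then 1 else 0 := by
        intro l hl
        rw [← Finset.mul_sum, h2 l hl]
        split_ifs
        · exact inv_mul_cancel₀ hc
        · rw [mul_zero]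
      rw [Finset.sum_congr rfl h4, Finset.sum_ite_eq]
    split_ifs at h3 ⊢
    · exact_mod_cast h3
    · exact_mod_cast h3

theorem qp_fin (R : ℝ) : {p : Nat.Primes | qp p ≤ R}.Finite := by
  refine Set.Finite.subset ((Set.finite_le_nat ⌊R⌋₊).preimage
    (Subtype.coe_injective.injOn (s := Set.univ) |>.mono (Set.subset_univ _))) fun p hp => ?_
  show (p : ℕ) ≤ ⌊R⌋₊
  have h1 : ((p : ℕ) : ℝ) ≤ R := hp
  exact Nat.le_floor h1

/-- **the cut sums** -/
theorem pcut (S : Finset Nat.Primes) (Fr : Nat.Primes → G) (g : G) (γ : ℝ) {A : ℝ}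
    (hA : 1 / 2 < A) : (fun T : ℝ => psum S Fr (cw g) (1 / 2) γ T -
      ∑ᶠ p ∈ {p : Nat.Primes | Real.log (qp p) ≤ Real.exp (A * T)},
        (cw g (Fr p) : ℂ) * lterm qp (pB S) (1 / 2) γ T (p, 0)) =O[atTop]
      (fun T : ℝ => 1 / T) := by
  classical
  set w : Nat.Primes × ℕ → ℝ := fun x => if x.2 = 0 then cw g (Fr x.1) else 0 with hw
  have hb : ∀ x, |w x| ≤ 1 := by
    intro x
    rw [hw]
    simp only
    split_ifs
    · exact abs_cw_le g _
    · simp
  have h1 := wcut (pdata S) hb qp_fin (1 / 2) γ (A := A) (by linarith) (by linarith)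
  refine h1.congr' ?_ (EventuallyEq.refl _ _)
  filter_upwards [eventually_gt_atTop 0] with T hT
  have h2 : wsum qp (pB S) w (1 / 2) γ T = psum S Fr (cw g) (1 / 2) γ T := by
    have hs := wsummable (pdata S) (w := w) (W := 1) hb (1 / 2) γ hT
    have s1 := split_one hs
    unfold wsum psum
    rw [s1]
    have e1 : ∑' x, ((w (shift 1 x) : ℝ) : ℂ) * lterm qp (pB S) (1 / 2) γ T (shift 1 x) = 0 := by
      refine (tsum_congr fun x => ?_).trans tsum_zero
      rw [hw]
      simp [shift]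
    rw [e1, add_zero]
    refine tsum_congr fun p => ?_
    rw [hw]
    simp
  rw [h2]
  congr 1
  have h3 : ∑ᶠ x ∈ cut qp A T, (w x : ℂ) * lterm qp (pB S) (1 / 2) γ T x =
      ∑ᶠ x ∈ (fun p : Nat.Primes => ((p, 0) : Nat.Primes × ℕ)) ''
        {p : Nat.Primes | Real.log (qp p) ≤ Real.exp (A * T)},
        (w x : ℂ) * lterm qp (pB S) (1 / 2) γ T x := by
    refine finsum_mem_inter_support_eq' _ _ _ fun x hx => ?_
    have hx0 : x.2 = 0 := by
      by_contra h0
      apply hx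
      rw [hw]
      simp [h0]
    constructor
    · intro h4
      refine ⟨x.1, ?_, Prod.ext rfl hx0.symm⟩
      have h5 : ((x.2 : ℝ) + 1) * Real.log (qp x.1) ≤ Real.exp (A * T) := h4
      rw [hx0, Nat.cast_zero, zero_add, one_mul] at h5
      exact h5
    · rintro ⟨p, hp, rfl⟩
      show (((0 : ℕ) : ℝ) + 1) * Real.log (qp p) ≤ Real.exp (A * T)
      rw [Nat.cast_zero, zero_add, one_mul]
      exact hp
  rw [h3, finsum_mem_image (fun a _ b _ h => (Prod.ext_iff.1 h).1)]
  refine finsum_mem_congr rfl fun p _ => ?_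
  rw [hw]
  simp

end

end Pool.Agent.TH652.PR
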